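import Pool.Agent.Q14.Graded

/-!
# A symmetric ideal whose Hilbert function is not that of a symmetric binomial ideal

`hilb J d` (from `Pool.Agent.Q14.Graded`) is the dimension of `(R/J)_d`, i.e. of the image of the
homogeneous polynomials of degree `d` in `R/J`.
-/

set_option autoImplicit false

namespace Pool.Agent.Results.MP_f9b6b5_al.NoBinomialModel

open MvPolynomial Q14.Mono Q14.Graded

attribute [local instance] MvPolynomial.gradedAlgebra

section Defs

variable {K : Type*} [Field K] {n : ℕ}

/-- The ideal `I` of `K[x_1, …, x_n]` is symmetric. -/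
def IsSymmetric (I : Ideal (MvPolynomial (Fin n) K)) : Prop :=
  ∀ σ : Equiv.Perm (Fin n), I.map (rename σ : _ →ₐ[K] MvPolynomial (Fin n) K) = I

/-- The nonzero polynomial `f` is invariant under permutations up to scalars. -/
def KSymmetric (f : MvPolynomial (Fin n) K) : Prop :=
  f ≠ 0 ∧ ∀ σ : Equiv.Perm (Fin n), ∃ c : K, rename σ f = c • f

/-- A monomial. -/
def IsMonomial (f : MvPolynomial (Fin n) K) : Prop := ∃ u, f = monomial u 1

/-- A binomial: exactly two terms. -/
def IsBinomial (f : MvPolynomial (Fin n) K) : Prop := f.support.card = 2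

/-- The ideal is generated by monomials and binomials. -/
def IsGenByMonomialsAndBinomials (J : Ideal (MvPolynomial (Fin n) K)) : Prop :=
  ∃ s : Set (MvPolynomial (Fin n) K), (∀ f ∈ s, IsMonomial f ∨ IsBinomial f) ∧ J = Ideal.span s

/-- No minimal generating set of `I` contains a `K`-symmetric polynomial.  We ask this both for the
generating sets with the least possible number of elements and for the generating
sets consisting of homogeneous elements that are minimal under inclusion. -/
def NoKSymmetricMinimalGenerator (I : Ideal (MvPolynomial (Fin n) K)) : Prop :=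
  (∀ s : Finset (MvPolynomial (Fin n) K), Ideal.span (s : Set (MvPolynomial (Fin n) K)) = I →
    (∀ t : Finset (MvPolynomial (Fin n) K), Ideal.span (t : Set (MvPolynomial (Fin n) K)) = I →
      s.card ≤ t.card) → ∀ f ∈ s, ¬ KSymmetric f) ∧
  (∀ s : Set (MvPolynomial (Fin n) K), (∀ f ∈ s, ∃ d, f.IsHomogeneous d) → Ideal.span s = I →
    (∀ t, t ⊂ s → Ideal.span t ≠ I) → ∀ f ∈ s, ¬ KSymmetric f)

end Defs

section Example

variable {K : Type*} [Field K]

/-- The principal symmetric ideal generated by the orbit of `(x_0 + x_1 + x_2)(x_0 - x_1)`. -/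
noncomputable def I₀ (K : Type*) [Field K] : Ideal (MvPolynomial (Fin 3) K) :=
  Ideal.span (Set.range (fun σ : Equiv.Perm (Fin 3) =>
    rename σ ((X 0 + X 1 + X 2) * (X 0 - X 1) : MvPolynomial (Fin 3) K)))

lemma rename_e1 (σ : Equiv.Perm (Fin 3)) :
    (rename σ (X 0 + X 1 + X 2) : MvPolynomial (Fin 3) K) = X 0 + X 1 + X 2 := by
  have h : (X 0 + X 1 + X 2 : MvPolynomial (Fin 3) K) = ∑ i, X i := by
    rw [Fin.sum_univ_three]
  rw [h, map_sum]
  simp only [rename_X]
  exact Equiv.sum_comp σ (fun i => (X i : MvPolynomial (Fin 3) K))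

lemma rename_gen (σ : Equiv.Perm (Fin 3)) :
    (rename σ ((X 0 + X 1 + X 2) * (X 0 - X 1)) : MvPolynomial (Fin 3) K)
      = (X 0 + X 1 + X 2) * (X (σ 0) - X (σ 1)) := by
  rw [map_mul, rename_e1, map_sub, rename_X, rename_X]

lemma mem_I₀ (i j : Fin 3) :
    ((X 0 + X 1 + X 2) * (X i - X j) : MvPolynomial (Fin 3) K) ∈ I₀ K := by
  by_cases h : i = j
  · subst h; rw [sub_self, mul_zero]; exact Ideal.zero_mem _
  · obtain ⟨σ, h0, h1⟩ : ∃ σ : Equiv.Perm (Fin 3), σ 0 = i ∧ σ 1 = j := by
      revert h; revert i j; decide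
    refine Ideal.subset_span ⟨σ, ?_⟩
    show rename σ _ = _
    rw [rename_gen, h0, h1]

/-- Two generators suffice. -/
lemma I₀_eq : I₀ K = Ideal.span {(X 0 + X 1 + X 2) * (X 0 - X 1),
    ((X 0 + X 1 + X 2) * (X 1 - X 2) : MvPolynomial (Fin 3) K)} := by
  apply le_antisymm
  · unfold I₀
    rw [Ideal.span_le]
    rintro _ ⟨σ, rfl⟩
    show rename σ _ ∈ _
    rw [rename_gen, SetLike.mem_coe, Ideal.mem_span_pair]
    have : ∀ i j : Fin 3, ∃ a b : MvPolynomial (Fin 3) K,
        a * ((X 0 + X 1 + X 2) * (X 0 - X 1)) + b * ((X 0 + X 1 + X 2) * (X 1 - X 2))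
          = (X 0 + X 1 + X 2) * (X i - X j) := by
      intro i j
      fin_cases i <;> fin_cases j
      · exact ⟨0, 0, by simp⟩
      · exact ⟨1, 0, by simp⟩
      · exact ⟨1, 1, by simp only [Fin.zero_eta, Fin.reduceFinMk]; ring⟩
      · exact ⟨-1, 0, by simp only [Fin.zero_eta, Fin.mk_one]; ring⟩
      · exact ⟨0, 0, by simp⟩
      · exact ⟨0, 1, by simp only [Fin.mk_one, Fin.reduceFinMk]; ring⟩
      · exact ⟨-1, -1, by simp only [Fin.zero_eta, Fin.reduceFinMk]; ring⟩
      · exact ⟨0, -1, by simp only [Fin.mk_one, Fin.reduceFinMk]; ring⟩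
      · exact ⟨0, 0, by simp⟩
    exact this _ _
  · rw [Ideal.span_le]
    rintro f (rfl | rfl)
    · exact mem_I₀ 0 1
    · exact mem_I₀ 1 2

lemma I₀_symmetric : IsSymmetric (I₀ K) := by
  have hle : ∀ σ : Equiv.Perm (Fin 3),
      (I₀ K).map (rename σ : _ →ₐ[K] MvPolynomial (Fin 3) K) ≤ I₀ K := by
    intro σ
    rw [Ideal.map_le_iff_le_comap]
    nth_rewrite 1 [I₀]
    rw [Ideal.span_le]
    rintro _ ⟨τ, rfl⟩
    show rename σ (rename τ _) ∈ I₀ K
    rw [rename_gen, map_mul, rename_e1, map_sub, rename_X, rename_X]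
    exact mem_I₀ _ _
  intro σ
  apply le_antisymm (hle σ)
  intro f hf
  have h1 : rename (σ⁻¹ : Equiv.Perm (Fin 3)) f ∈ I₀ K :=
    hle σ⁻¹ (Ideal.mem_map_of_mem _ hf)
  have h2 := Ideal.mem_map_of_mem (rename σ : _ →ₐ[K] MvPolynomial (Fin 3) K) h1
  rw [rename_rename] at h2
  have h3 : (⇑σ ∘ ⇑(σ⁻¹ : Equiv.Perm (Fin 3))) = id := by
    ext x; simp
  rw [h3, rename_id] at h2
  exact h2

lemma gen_homogeneous (i j : Fin 3) :
    ((X 0 + X 1 + X 2) * (X i - X j) : MvPolynomial (Fin 3) K).IsHomogeneous 2 := by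
  have h1 : (X 0 + X 1 + X 2 : MvPolynomial (Fin 3) K).IsHomogeneous 1 :=
    ((isHomogeneous_X K 0).add (isHomogeneous_X K 1)).add (isHomogeneous_X K 2)
  exact h1.mul ((isHomogeneous_X K i).sub (isHomogeneous_X K j))

lemma I₀_homogeneous : (I₀ K).IsHomogeneous (homogeneousSubmodule (Fin 3) K) := by
  apply Ideal.homogeneous_span
  rintro _ ⟨σ, rfl⟩
  refine ⟨2, ?_⟩
  show (rename σ _ : MvPolynomial (Fin 3) K).IsHomogeneous 2
  rw [rename_gen]
  exact gen_homogeneous _ _

lemma I₀_le : I₀ K ≤ WtGE K 1 2 := by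
  unfold I₀
  rw [Ideal.span_le]
  rintro _ ⟨σ, rfl⟩
  show rename σ _ ∈ WtGE K 1 2
  rw [rename_gen]
  exact mem_WtGE_of_isHomogeneous (gen_homogeneous _ _) le_rfl

/-- The elements of degree two of `I₀`. -/
lemma mem_I₀_two {f : MvPolynomial (Fin 3) K} (hf : f ∈ I₀ K) (h2 : f.IsHomogeneous 2) :
    ∃ a b : K, f = C a * ((X 0 + X 1 + X 2) * (X 0 - X 1))
      + C b * ((X 0 + X 1 + X 2) * (X 1 - X 2)) := by
  rw [I₀_eq, Ideal.mem_span_pair] at hf
  obtain ⟨p, r, hpr⟩ := hf
  refine ⟨coeff 0 p, coeff 0 r, ?_⟩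
  have h := congrArg (homogeneousComponent 2) hpr
  rw [homogeneousComponent_of_mem ((mem_homogeneousSubmodule 2 f).mpr h2), if_pos rfl,
    map_add, homogeneousComponent_mul (b := p) (mem_WtGE_of_isHomogeneous
      (gen_homogeneous 0 1) le_rfl), homogeneousComponent_mul (b := r)
      (mem_WtGE_of_isHomogeneous (gen_homogeneous 1 2) le_rfl),
    homogeneousComponent_of_mem ((mem_homogeneousSubmodule 2 _).mpr (gen_homogeneous 0 1)),
    homogeneousComponent_of_mem ((mem_homogeneousSubmodule 2 _).mpr (gen_homogeneous 1 2)),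
    if_pos rfl] at h
  exact h.symm

/-- There is no nonzero element of degree two of `I₀` invariant up to scalars. -/
lemma not_kSymmetric_two [CharZero K] {f : MvPolynomial (Fin 3) K} (hf : f ∈ I₀ K)
    (h2 : f.IsHomogeneous 2) (hs : ∀ σ : Equiv.Perm (Fin 3), ∃ c : K, rename σ f = c • f) :
    f = 0 := by
  obtain ⟨a, b, rfl⟩ := mem_I₀_two hf h2
  obtain ⟨c, hc⟩ := hs (Equiv.swap 0 1)
  obtain ⟨d, hd⟩ := hs (Equiv.swap 1 2)
  have s00 : (Equiv.swap (0 : Fin 3) 1) 0 = 1 := by decide
  have s01 : (Equiv.swap (0 : Fin 3) 1) 1 = 0 := by decide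
  have s02 : (Equiv.swap (0 : Fin 3) 1) 2 = 2 := by decide
  have t00 : (Equiv.swap (1 : Fin 3) 2) 0 = 0 := by decide
  have t01 : (Equiv.swap (1 : Fin 3) 2) 1 = 2 := by decide
  have t02 : (Equiv.swap (1 : Fin 3) 2) 2 = 1 := by decide
  have ev : ∀ (x y z : K), ∀ p r : MvPolynomial (Fin 3) K, p = r →
      eval ![x, y, z] p = eval ![x, y, z] r := fun x y z p r h => by rw [h]
  have h1 := ev 1 0 0 _ _ hc
  have h2 := ev 0 1 0 _ _ hc
  have h3 := ev 0 0 1 _ _ hc
  have k1 := ev 1 0 0 _ _ hd
  have k2 := ev 0 1 0 _ _ hd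
  have k3 := ev 0 0 1 _ _ hd
  simp [s00, s01, s02] at h1 h2 h3
  simp [t00, t01, t02] at k1 k2 k3
  -- coordinates `a`, `b - a`, `-b`
  have hab : a = 0 ∧ b = 0 := by
    by_cases hb : b = 0
    · subst hb
      rw [mul_zero, neg_zero, add_zero, neg_eq_zero] at k3
      exact ⟨k3, rfl⟩
    · have hc1 : c = 1 := by
        have h4 : (c - 1) * b = 0 := by linear_combination -h3
        rcases mul_eq_zero.mp h4 with h | h
        · linear_combination h
        · exact absurd h hb
      subst hc1
      have hb2 : b = 2 * a := by linear_combination h1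
      have ha : a ≠ 0 := by
        rintro rfl
        apply hb; rw [hb2, mul_zero]
      have hd1 : d = 1 := by
        have h4 : (d - 1) * a = 0 := by linear_combination -k1
        rcases mul_eq_zero.mp h4 with h | h
        · linear_combination h
        · exact absurd h ha
      subst hd1
      exfalso
      have h5 : (3 : K) * a = 0 := by linear_combination (-1 : K) * k2 - (2 : K) * hb2
      rcases mul_eq_zero.mp h5 with h | h
      · exact three_ne_zero h
      · exact ha h
  rw [hab.1, hab.2]
  simp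

/-! ### The minimal generating sets of `I₀` -/

lemma gen_ne_zero [CharZero K] (c d : K) (h : C c * ((X 0 + X 1 + X 2) * (X 0 - X 1))
      + C d * ((X 0 + X 1 + X 2) * (X 1 - X 2)) = (0 : MvPolynomial (Fin 3) K)) :
    c = 0 ∧ d = 0 := by
  have h1 := congrArg (eval ![1, 0, 0]) h
  have h2 := congrArg (eval ![0, 0, 1]) h
  simp at h1 h2
  exact ⟨h1, h2⟩

lemma component_kSymmetric {f : MvPolynomial (Fin 3) K} (d : ℕ)
    (hs : ∀ σ : Equiv.Perm (Fin 3), ∃ c : K, rename σ f = c • f) :
    ∀ σ : Equiv.Perm (Fin 3), ∃ c : K,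
      rename σ (homogeneousComponent d f) = c • homogeneousComponent d f := by
  intro σ
  obtain ⟨c, hc⟩ := hs σ
  refine ⟨c, ?_⟩
  rw [← map_smul, ← hc, rename_homogeneousComponent]

lemma component_mem {I : Ideal (MvPolynomial (Fin 3) K)}
    (hI : I.IsHomogeneous (homogeneousSubmodule (Fin 3) K)) {f : MvPolynomial (Fin 3) K}
    (hf : f ∈ I) (d : ℕ) : homogeneousComponent d f ∈ I :=
  homogeneousComponent_mem_of_mem hI hf d

lemma component_zero [CharZero K] {f : MvPolynomial (Fin 3) K} (hf : f ∈ I₀ K)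
    (hs : ∀ σ : Equiv.Perm (Fin 3), ∃ c : K, rename σ f = c • f) :
    homogeneousComponent 2 f = 0 :=
  not_kSymmetric_two (component_mem I₀_homogeneous hf 2) (homogeneousComponent_isHomogeneous _ _)
    (component_kSymmetric 2 hs)

lemma noKSymmetric_card [CharZero K] (s : Finset (MvPolynomial (Fin 3) K))
    (hs : Ideal.span (s : Set (MvPolynomial (Fin 3) K)) = I₀ K)
    (hmin : ∀ t : Finset (MvPolynomial (Fin 3) K),
      Ideal.span (t : Set (MvPolynomial (Fin 3) K)) = I₀ K → s.card ≤ t.card)
    (f : MvPolynomial (Fin 3) K) (hf : f ∈ s) : ¬ KSymmetric f := by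
  classical
  rintro ⟨-, hsym⟩
  have hfI : f ∈ I₀ K := by rw [← hs]; exact Ideal.subset_span hf
  have hf2 := component_zero hfI hsym
  have hcard : s.card ≤ 2 := by
    refine (hmin {(X 0 + X 1 + X 2) * (X 0 - X 1), (X 0 + X 1 + X 2) * (X 1 - X 2)} ?_).trans
      Finset.card_le_two
    rw [I₀_eq]
    congr 1
    simp
  have hsub : ∃ g, s ⊆ {f, g} := by
    by_cases h1 : ∃ g ∈ s, g ≠ f
    · obtain ⟨g, hg, hgf⟩ := h1
      refine ⟨g, ?_⟩
      have h2 : ({f, g} : Finset _) ⊆ s := by
        intro x hx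
        rcases Finset.mem_insert.mp hx with rfl | hx
        · exact hf
        · rw [Finset.mem_singleton.mp hx]; exact hg
      have h3 : ({f, g} : Finset _).card = 2 := Finset.card_pair hgf.symm
      exact (Finset.eq_of_subset_of_card_le h2 (by omega)).symm.subset
    · push Not at h1
      exact ⟨f, fun x hx => by rw [h1 x hx]; simp⟩
  obtain ⟨g, hg⟩ := hsub
  -- the degree two components of all elements of `I₀` are multiples of one element
  have key : ∀ h ∈ I₀ K, ∃ c : K, homogeneousComponent 2 h = C c * homogeneousComponent 2 g := by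
    intro h hh
    rw [← hs] at hh
    induction hh using Submodule.span_induction with
    | mem x hx =>
      have := hg hx
      rcases Finset.mem_insert.mp this with rfl | h1
      · exact ⟨0, by rw [hf2]; simp⟩
      · rw [Finset.mem_singleton.mp h1]; exact ⟨1, by simp⟩
    | zero => exact ⟨0, by simp⟩
    | add x y _ _ hx hy =>
      obtain ⟨c, hc⟩ := hx
      obtain ⟨d, hd⟩ := hy
      exact ⟨c + d, by rw [map_add, hc, hd, map_add, add_mul]⟩
    | smul a x hx' hx =>
      obtain ⟨c, hc⟩ := hx
      refine ⟨coeff 0 a * c, ?_⟩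
      have hx2 : x ∈ I₀ K := by rw [← hs]; exact hx'
      rw [smul_eq_mul, homogeneousComponent_mul (I₀_le hx2), hc, map_mul, mul_assoc]
  obtain ⟨c, hc⟩ := key _ (mem_I₀ 0 1)
  obtain ⟨d, hd⟩ := key _ (mem_I₀ 1 2)
  rw [homogeneousComponent_of_mem ((mem_homogeneousSubmodule 2 _).mpr (gen_homogeneous _ _)),
    if_pos rfl] at hc hd
  have h1 : C d * ((X 0 + X 1 + X 2) * (X 0 - X 1))
      + C (-c) * ((X 0 + X 1 + X 2) * (X 1 - X 2)) = (0 : MvPolynomial (Fin 3) K) := by
    rw [hc, hd, map_neg]; ring
  obtain ⟨h2, h3⟩ := gen_ne_zero _ _ h1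
  rw [neg_eq_zero] at h3
  have h4 : C (1 : K) * ((X 0 + X 1 + X 2) * (X 0 - X 1))
      + C (0 : K) * ((X 0 + X 1 + X 2) * (X 1 - X 2)) = (0 : MvPolynomial (Fin 3) K) := by
    rw [hc, h3]; simp
  exact one_ne_zero (gen_ne_zero _ _ h4).1

lemma noKSymmetric_hom [CharZero K] (s : Set (MvPolynomial (Fin 3) K))
    (hhom : ∀ f ∈ s, ∃ d, f.IsHomogeneous d) (hs : Ideal.span s = I₀ K)
    (hmin : ∀ t, t ⊂ s → Ideal.span t ≠ I₀ K)
    (f : MvPolynomial (Fin 3) K) (hf : f ∈ s) : ¬ KSymmetric f := by
  rintro ⟨hf0, hsym⟩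
  let s2 : Set (MvPolynomial (Fin 3) K) := {g ∈ s | g.IsHomogeneous 2}
  have key : ∀ h ∈ I₀ K, homogeneousComponent 2 h ∈ Ideal.span s2 := by
    intro h hh
    rw [← hs] at hh
    induction hh using Submodule.span_induction with
    | mem x hx =>
      obtain ⟨d, hd⟩ := hhom x hx
      rw [homogeneousComponent_of_mem ((mem_homogeneousSubmodule d x).mpr hd)]
      split_ifs with h2
      · subst h2
        exact Ideal.subset_span ⟨hx, hd⟩
      · exact Ideal.zero_mem _
    | zero => rw [map_zero]; exact Ideal.zero_mem _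
    | add x y _ _ hx hy => rw [map_add]; exact Ideal.add_mem _ hx hy
    | smul a x hx' hx =>
      have hx2 : x ∈ I₀ K := by rw [← hs]; exact hx'
      rw [smul_eq_mul, homogeneousComponent_mul (I₀_le hx2)]
      exact Ideal.mul_mem_left _ _ hx
  have hgen : ∀ i j : Fin 3,
      ((X 0 + X 1 + X 2) * (X i - X j) : MvPolynomial (Fin 3) K) ∈ Ideal.span s2 := by
    intro i j
    have := key _ (mem_I₀ i j)
    rwa [homogeneousComponent_of_mem ((mem_homogeneousSubmodule 2 _).mpr (gen_homogeneous _ _)),
      if_pos rfl] at this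
  have hspan : Ideal.span s2 = I₀ K := by
    apply le_antisymm
    · rw [← hs]; exact Ideal.span_mono (fun x hx => hx.1)
    · rw [I₀_eq, Ideal.span_le]
      rintro x (rfl | rfl)
      · exact hgen 0 1
      · exact hgen 1 2
  have hs2 : s2 = s := by
    by_contra hne
    exact hmin s2 (Set.ssubset_iff_subset_ne.mpr ⟨fun x hx => hx.1, hne⟩) hspan
  have hf2 : f ∈ s2 := by rw [hs2]; exact hf
  have hfI : f ∈ I₀ K := by rw [← hs]; exact Ideal.subset_span hf
  exact hf0 (not_kSymmetric_two hfI hf2.2 hsym)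

/-! ### The dimensions of the graded pieces of `I₀` -/

lemma piece_zero_of_lt {d : ℕ} (hd : d < 2) : Module.finrank K (piece (I₀ K) d) = 0 := by
  have : piece (I₀ K) d = ⊥ := by
    rw [eq_bot_iff]
    intro f hf
    rw [mem_piece] at hf
    rw [Submodule.mem_bot]
    by_contra hne
    obtain ⟨u, hu⟩ := support_nonempty.mpr hne
    have h1 := I₀_le hf.1 u hu
    have h2 : Finsupp.weight (1 : Fin 3 → ℕ) u = d := hf.2 (mem_support_iff.mp hu)
    omega
  rw [this]
  exact finrank_bot K _

lemma piece_two_ne_zero [CharZero K] : Module.finrank K (piece (I₀ K) 2) ≠ 0 := by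
  have := finite_piece (I₀ K) 2
  have hne : ((X 0 + X 1 + X 2) * (X 0 - X 1) : MvPolynomial (Fin 3) K) ≠ 0 := by
    intro h
    have h1 : C (1 : K) * ((X 0 + X 1 + X 2) * (X 0 - X 1))
      + C (0 : K) * ((X 0 + X 1 + X 2) * (X 1 - X 2)) = (0 : MvPolynomial (Fin 3) K) := by
      rw [h]; simp
    exact one_ne_zero (gen_ne_zero _ _ h1).1
  rw [← Nat.pos_iff_ne_zero, Module.finrank_pos_iff_exists_ne_zero]
  exact ⟨⟨_, mem_piece.mpr ⟨mem_I₀ 0 1, gen_homogeneous 0 1⟩⟩,
    fun h => hne (congrArg Subtype.val h)⟩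

lemma piece_two_le : Module.finrank K (piece (I₀ K) 2) ≤ 2 := by
  classical
  have hle : piece (I₀ K) 2 ≤ Submodule.span K
      (({(X 0 + X 1 + X 2) * (X 0 - X 1), (X 0 + X 1 + X 2) * (X 1 - X 2)} :
        Finset (MvPolynomial (Fin 3) K)) : Set (MvPolynomial (Fin 3) K)) := by
    intro f hf
    rw [mem_piece] at hf
    obtain ⟨a, b, rfl⟩ := mem_I₀_two hf.1 hf.2
    rw [C_mul', C_mul']
    refine Submodule.add_mem _ (Submodule.smul_mem _ _ (Submodule.subset_span ?_))
      (Submodule.smul_mem _ _ (Submodule.subset_span ?_)) <;> simp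
  exact (Submodule.finrank_mono hle).trans ((finrank_span_finset_le_card _).trans
    Finset.card_le_two)

lemma homogeneousComponent_mul_homogeneous {p r : MvPolynomial (Fin 3) K} {m : ℕ}
    (hr : r.IsHomogeneous m) (k : ℕ) :
    homogeneousComponent (k + m) (p * r) = homogeneousComponent k p * r := by
  induction p using MvPolynomial.induction_on' with
  | monomial u a =>
    have h1 : (monomial u a : MvPolynomial (Fin 3) K) ∈ homogeneousSubmodule (Fin 3) K u.degree :=
      (mem_homogeneousSubmodule _ _).mpr (isHomogeneous_monomial a rfl)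
    have h2 : (monomial u a * r) ∈ homogeneousSubmodule (Fin 3) K (u.degree + m) :=
      (mem_homogeneousSubmodule _ _).mpr ((isHomogeneous_monomial a rfl).mul hr)
    rw [homogeneousComponent_of_mem h1, homogeneousComponent_of_mem h2]
    by_cases h : k = u.degree
    · subst h; simp
    · rw [if_neg h, if_neg (by omega), zero_mul]
  | add p q hp hq => rw [add_mul, map_add, hp, hq, map_add, add_mul]

lemma exists_linear {p : MvPolynomial (Fin 3) K} (hp : p.IsHomogeneous 1) :
    ∃ a : Fin 3 → K, p = ∑ i, C (a i) * X i := by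
  have h1 := (mem_homogeneousSubmodule 1 p).mpr hp
  rw [homogeneousSubmodule_one_eq_span_X, Submodule.mem_span_range_iff_exists_fun] at h1
  obtain ⟨c, hc⟩ := h1
  refine ⟨c, ?_⟩
  rw [← hc]
  simp only [C_mul']

lemma mem_I₀_three {f : MvPolynomial (Fin 3) K} (hf : f ∈ I₀ K) (h3 : f.IsHomogeneous 3) :
    ∃ a b : Fin 3 → K, f = (∑ i, C (a i) * X i) * ((X 0 + X 1 + X 2) * (X 0 - X 1))
      + (∑ i, C (b i) * X i) * ((X 0 + X 1 + X 2) * (X 1 - X 2)) := by
  rw [I₀_eq, Ideal.mem_span_pair] at hf
  obtain ⟨p, r, hpr⟩ := hf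
  obtain ⟨a, ha⟩ := exists_linear (homogeneousComponent_isHomogeneous 1 p)
  obtain ⟨b, hb⟩ := exists_linear (homogeneousComponent_isHomogeneous 1 r)
  refine ⟨a, b, ?_⟩
  have h := congrArg (homogeneousComponent (1 + 2)) hpr
  rw [homogeneousComponent_of_mem ((mem_homogeneousSubmodule 3 f).mpr h3), if_pos rfl,
    map_add, homogeneousComponent_mul_homogeneous (gen_homogeneous 0 1),
    homogeneousComponent_mul_homogeneous (gen_homogeneous 1 2), ha, hb] at h
  exact h.symm

lemma piece_three_le : Module.finrank K (piece (I₀ K) 3) ≤ 5 := by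
  classical
  have hle : piece (I₀ K) 3 ≤ Submodule.span K
      (({X 0 * ((X 0 + X 1 + X 2) * (X 0 - X 1)), X 2 * ((X 0 + X 1 + X 2) * (X 0 - X 1)),
        X 0 * ((X 0 + X 1 + X 2) * (X 1 - X 2)), X 1 * ((X 0 + X 1 + X 2) * (X 1 - X 2)),
        X 2 * ((X 0 + X 1 + X 2) * (X 1 - X 2))} :
        Finset (MvPolynomial (Fin 3) K)) : Set (MvPolynomial (Fin 3) K)) := by
    intro f hf
    rw [mem_piece] at hf
    obtain ⟨a, b, rfl⟩ := mem_I₀_three hf.1 hf.2
    have h1 : ((∑ i, C (a i) * X i) * ((X 0 + X 1 + X 2) * (X 0 - X 1))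
      + (∑ i, C (b i) * X i) * ((X 0 + X 1 + X 2) * (X 1 - X 2)) : MvPolynomial (Fin 3) K)
      = a 0 • (X 0 * ((X 0 + X 1 + X 2) * (X 0 - X 1)))
      + (a 1 + a 2) • (X 2 * ((X 0 + X 1 + X 2) * (X 0 - X 1)))
      + (b 0 + a 1) • (X 0 * ((X 0 + X 1 + X 2) * (X 1 - X 2)))
      + (b 1 - a 1) • (X 1 * ((X 0 + X 1 + X 2) * (X 1 - X 2)))
      + b 2 • (X 2 * ((X 0 + X 1 + X 2) * (X 1 - X 2))) := by
      rw [Fin.sum_univ_three, Fin.sum_univ_three]
      simp only [← C_mul', map_add, map_sub]
      ring
    rw [h1]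
    refine Submodule.add_mem _ (Submodule.add_mem _ (Submodule.add_mem _ (Submodule.add_mem _
      (Submodule.smul_mem _ _ (Submodule.subset_span ?_))
      (Submodule.smul_mem _ _ (Submodule.subset_span ?_)))
      (Submodule.smul_mem _ _ (Submodule.subset_span ?_)))
      (Submodule.smul_mem _ _ (Submodule.subset_span ?_)))
      (Submodule.smul_mem _ _ (Submodule.subset_span ?_)) <;> simp
  exact (Submodule.finrank_mono hle).trans ((finrank_span_finset_le_card _).trans
    Finset.card_le_five)

/-! ### Symmetric ideals containing a polynomial of degree two with at most two terms -/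

lemma card_le_finrank {ι M : Type*} [Fintype ι] [AddCommGroup M] [Module K M]
    (W : Submodule K M) [Module.Finite K W] (v : ι → M) (hv : ∀ i, v i ∈ W)
    (hli : LinearIndependent K v) : Fintype.card ι ≤ Module.finrank K W := by
  have h : LinearIndependent K (fun i => (⟨v i, hv i⟩ : W)) :=
    LinearIndependent.of_comp W.subtype hli
  exact h.fintype_card_le_finrank

lemma sym_mem {J : Ideal (MvPolynomial (Fin 3) K)} (hJ : IsSymmetric J)
    (σ : Equiv.Perm (Fin 3)) {f : MvPolynomial (Fin 3) K} (hf : f ∈ J) : rename σ f ∈ J := by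
  rw [← hJ σ]; exact Ideal.mem_map_of_mem _ hf

variable {J : Ideal (MvPolynomial (Fin 3) K)}

lemma three_le (v : Fin 3 → MvPolynomial (Fin 3) K) (hv : ∀ i, v i ∈ J ∧ (v i).IsHomogeneous 2)
    (hli : ∀ g : Fin 3 → K, ∑ i, g i • v i = 0 → ∀ i, g i = 0) :
    3 ≤ Module.finrank K (piece J 2) := by
  have := finite_piece J 2
  have h := card_le_finrank (piece J 2) v (fun i => mem_piece.mpr (hv i))
    (Fintype.linearIndependent_iff.mpr hli)
  simpa using h

lemma six_le (v : Fin 6 → MvPolynomial (Fin 3) K) (hv : ∀ i, v i ∈ J ∧ (v i).IsHomogeneous 3)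
    (hli : ∀ g : Fin 6 → K, ∑ i, g i • v i = 0 → ∀ i, g i = 0) :
    6 ≤ Module.finrank K (piece J 3) := by
  have := finite_piece J 3
  have h := card_le_finrank (piece J 3) v (fun i => mem_piece.mpr (hv i))
    (Fintype.linearIndependent_iff.mpr hli)
  simpa using h

lemma hom2 (i j : Fin 3) (a : K) : (C a * X i * X j : MvPolynomial (Fin 3) K).IsHomogeneous 2 := by
  have := ((isHomogeneous_C (Fin 3) a).mul (isHomogeneous_X K i)).mul (isHomogeneous_X K j)
  simpa using this

/-- Squares. -/
lemma caseA [CharZero K] (hJ : IsSymmetric J) (h2 : Module.finrank K (piece J 2) ≤ 2)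
    (h3 : Module.finrank K (piece J 3) ≤ 5) {a b : K} (ha : a ≠ 0)
    (h : (C a * X 0 * X 0 + C b * X 1 * X 1 : MvPolynomial (Fin 3) K) ∈ J) : False := by
  have hs := sym_mem hJ (Equiv.swap 0 1) h
  have s0 : (Equiv.swap (0 : Fin 3) 1) 0 = 1 := by decide
  have s1 : (Equiv.swap (0 : Fin 3) 1) 1 = 0 := by decide
  simp only [map_add, map_mul, rename_C, rename_X, s0, s1] at hs
  by_cases hab : a + b = 0
  · have hb : b = -a := by linear_combination hab
    have hq : ∀ i j : Fin 3, i ≠ j →
        (X i * X i - X j * X j : MvPolynomial (Fin 3) K) ∈ J := by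
      intro i j hij
      obtain ⟨σ, h0, h1⟩ : ∃ σ : Equiv.Perm (Fin 3), σ 0 = i ∧ σ 1 = j := by
        revert hij; revert i j; decide
      have h4 := J.mul_mem_left (C a⁻¹) (sym_mem hJ σ h)
      simp only [map_add, map_mul, rename_C, rename_X, h0, h1] at h4
      convert! h4 using 1
      rw [hb]
      have : (C a⁻¹ * C a : MvPolynomial (Fin 3) K) = 1 := by
        rw [← map_mul, inv_mul_cancel₀ ha, map_one]
      rw [map_neg]
      linear_combination (-(X i * X i - X j * X j) : MvPolynomial (Fin 3) K) * this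
    have hd : ∀ i j : Fin 3, (X i * X i - X j * X j : MvPolynomial (Fin 3) K).IsHomogeneous 2 :=
      fun i j => ((isHomogeneous_X K i).mul (isHomogeneous_X K i)).sub
        ((isHomogeneous_X K j).mul (isHomogeneous_X K j))
    have h6 := six_le (J := J) ![X 0 * (X 0 * X 0 - X 1 * X 1), X 1 * (X 0 * X 0 - X 1 * X 1),
      X 2 * (X 0 * X 0 - X 1 * X 1), X 0 * (X 1 * X 1 - X 2 * X 2),
      X 1 * (X 1 * X 1 - X 2 * X 2), X 2 * (X 1 * X 1 - X 2 * X 2)] (by
        intro i
        have e1 := hq 0 1 (by decide)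
        have e2 := hq 1 2 (by decide)
        have d1 := hd 0 1
        have d2 := hd 1 2
        fin_cases i
        · exact ⟨J.mul_mem_left _ e1, (isHomogeneous_X K _).mul d1⟩
        · exact ⟨J.mul_mem_left _ e1, (isHomogeneous_X K _).mul d1⟩
        · exact ⟨J.mul_mem_left _ e1, (isHomogeneous_X K _).mul d1⟩
        · exact ⟨J.mul_mem_left _ e2, (isHomogeneous_X K _).mul d2⟩
        · exact ⟨J.mul_mem_left _ e2, (isHomogeneous_X K _).mul d2⟩
        · exact ⟨J.mul_mem_left _ e2, (isHomogeneous_X K _).mul d2⟩) (by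
        intro g hg
        rw [Fin.sum_univ_six] at hg
        have k1 := congrArg (eval ![(1 : K), 0, 0]) hg
        have k2 := congrArg (eval ![(0 : K), 1, 0]) hg
        have k3 := congrArg (eval ![(0 : K), 0, 1]) hg
        have k4 := congrArg (eval ![(1 : K), 1, 0]) hg
        have k5 := congrArg (eval ![(1 : K), -1, 0]) hg
        have k6 := congrArg (eval ![(0 : K), 1, 1]) hg
        simp [smul_eval] at k1 k2 k3 k4 k5 k6
        have g4 : g 4 = 0 := by
          have : (2 : K) * g 4 = 0 := by linear_combination k4 - k5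
          rcases mul_eq_zero.mp this with h | h
          · exact absurd h two_ne_zero
          · exact h
        have g3 : g 3 = 0 := by linear_combination k4 - g4
        have g1 : g 1 = 0 := by linear_combination g4 - k2
        have g2 : g 2 = 0 := by linear_combination (-1 : K) * k6 - g1
        intro i
        fin_cases i
        · exact k1
        · exact g1
        · exact g2
        · exact g3
        · exact g4
        · exact k3)
    omega
  · have hq : ∀ i j : Fin 3, i ≠ j →
        (X i * X i + X j * X j : MvPolynomial (Fin 3) K) ∈ J := by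
      intro i j hij
      obtain ⟨σ, h0, h1⟩ : ∃ σ : Equiv.Perm (Fin 3), σ 0 = i ∧ σ 1 = j := by
        revert hij; revert i j; decide
      have h4 := J.mul_mem_left (C (a + b)⁻¹) (sym_mem hJ σ (J.add_mem h hs))
      simp only [map_add, map_mul, rename_C, rename_X, h0, h1] at h4
      convert! h4 using 1
      have : (C (a + b)⁻¹ * (C a + C b) : MvPolynomial (Fin 3) K) = 1 := by
        rw [← map_add, ← map_mul, inv_mul_cancel₀ hab, map_one]
      linear_combination (-(X i * X i + X j * X j) : MvPolynomial (Fin 3) K) * this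
    have hd : ∀ i j : Fin 3, (X i * X i + X j * X j : MvPolynomial (Fin 3) K).IsHomogeneous 2 :=
      fun i j => ((isHomogeneous_X K i).mul (isHomogeneous_X K i)).add
        ((isHomogeneous_X K j).mul (isHomogeneous_X K j))
    have h6 := three_le (J := J) ![X 0 * X 0 + X 1 * X 1, X 0 * X 0 + X 2 * X 2,
      X 1 * X 1 + X 2 * X 2] (by
        intro i
        fin_cases i
        · exact ⟨hq 0 1 (by decide), hd _ _⟩
        · exact ⟨hq 0 2 (by decide), hd _ _⟩
        · exact ⟨hq 1 2 (by decide), hd _ _⟩) (by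
        intro g hg
        rw [Fin.sum_univ_three] at hg
        have k1 := congrArg (eval ![(1 : K), 0, 0]) hg
        have k2 := congrArg (eval ![(0 : K), 1, 0]) hg
        have k3 := congrArg (eval ![(0 : K), 0, 1]) hg
        simp [smul_eval] at k1 k2 k3
        have g0 : g 0 = 0 := by
          have : (2 : K) * g 0 = 0 := by linear_combination k1 + k2 - k3
          rcases mul_eq_zero.mp this with h | h
          · exact absurd h two_ne_zero
          · exact h
        have g1 : g 1 = 0 := by linear_combination k1 - g0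
        have g2 : g 2 = 0 := by linear_combination k2 - g0
        intro i
        fin_cases i
        · exact g0
        · exact g1
        · exact g2)
    omega

/-- Products of two different variables. -/
lemma caseB [CharZero K] (hJ : IsSymmetric J) (h2 : Module.finrank K (piece J 2) ≤ 2)
    (h3 : Module.finrank K (piece J 3) ≤ 5) {a b : K} (ha : a ≠ 0)
    (h : (C a * X 1 * X 2 + C b * X 0 * X 2 : MvPolynomial (Fin 3) K) ∈ J) : False := by
  have hs := sym_mem hJ (Equiv.swap 0 1) h
  have s0 : (Equiv.swap (0 : Fin 3) 1) 0 = 1 := by decide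
  have s1 : (Equiv.swap (0 : Fin 3) 1) 1 = 0 := by decide
  have s2 : (Equiv.swap (0 : Fin 3) 1) 2 = 2 := by decide
  simp only [map_add, map_mul, rename_C, rename_X, s0, s1, s2] at hs
  by_cases hab : a + b = 0
  · have hb : b = -a := by linear_combination hab
    have hq : ∀ i j k : Fin 3, i ≠ j → i ≠ k → j ≠ k →
        (X k * (X j - X i) : MvPolynomial (Fin 3) K) ∈ J := by
      intro i j k hij hik hjk
      obtain ⟨σ, h0, h1, h2⟩ : ∃ σ : Equiv.Perm (Fin 3), σ 0 = i ∧ σ 1 = j ∧ σ 2 = k := by
        revert hij hik hjk; revert i j k; decide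
      have h4 := J.mul_mem_left (C a⁻¹) (sym_mem hJ σ h)
      simp only [map_add, map_mul, rename_C, rename_X, h0, h1, h2] at h4
      convert! h4 using 1
      rw [hb]
      have : (C a⁻¹ * C a : MvPolynomial (Fin 3) K) = 1 := by
        rw [← map_mul, inv_mul_cancel₀ ha, map_one]
      rw [map_neg]
      linear_combination (-(X k * (X j - X i)) : MvPolynomial (Fin 3) K) * this
    have hd : ∀ i j k : Fin 3, (X k * (X j - X i) : MvPolynomial (Fin 3) K).IsHomogeneous 2 :=
      fun i j k => (isHomogeneous_X K k).mul ((isHomogeneous_X K j).sub (isHomogeneous_X K i))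
    have h6 := six_le (J := J) ![X 0 * (X 0 * (X 1 - X 2)), X 1 * (X 0 * (X 1 - X 2)),
      X 2 * (X 0 * (X 1 - X 2)), X 0 * (X 2 * (X 1 - X 0)),
      X 1 * (X 2 * (X 1 - X 0)), X 2 * (X 2 * (X 1 - X 0))] (by
        intro i
        have e1 := hq 2 1 0 (by decide) (by decide) (by decide)
        have e2 := hq 0 1 2 (by decide) (by decide) (by decide)
        have d1 := hd 2 1 0
        have d2 := hd 0 1 2
        fin_cases i
        · exact ⟨J.mul_mem_left _ e1, (isHomogeneous_X K _).mul d1⟩
        · exact ⟨J.mul_mem_left _ e1, (isHomogeneous_X K _).mul d1⟩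
        · exact ⟨J.mul_mem_left _ e1, (isHomogeneous_X K _).mul d1⟩
        · exact ⟨J.mul_mem_left _ e2, (isHomogeneous_X K _).mul d2⟩
        · exact ⟨J.mul_mem_left _ e2, (isHomogeneous_X K _).mul d2⟩
        · exact ⟨J.mul_mem_left _ e2, (isHomogeneous_X K _).mul d2⟩) (by
        intro g hg
        rw [Fin.sum_univ_six] at hg
        have k1 := congrArg (eval ![(1 : K), 1, 0]) hg
        have k2 := congrArg (eval ![(1 : K), -1, 0]) hg
        have k3 := congrArg (eval ![(0 : K), 1, 1]) hg
        have k4 := congrArg (eval ![(0 : K), 1, -1]) hg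
        have k5 := congrArg (eval ![(1 : K), 0, 1]) hg
        have k6 := congrArg (eval ![(1 : K), 0, -1]) hg
        simp [smul_eval] at k1 k2 k3 k4 k5 k6
        have two : ∀ x : K, 2 * x = 0 → x = 0 := by
          intro x hx
          rcases mul_eq_zero.mp hx with h | h
          · exact absurd h two_ne_zero
          · exact h
        have g0 : g 0 = 0 := two _ (by linear_combination k1 - k2)
        have g1 : g 1 = 0 := by linear_combination k1 - g0
        have g4 : g 4 = 0 := two _ (by linear_combination k3 - k4)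
        have g5 : g 5 = 0 := by linear_combination k3 - g4
        have g3 : g 3 = 0 := two _ (by linear_combination k6 - k5 - (2 : K) * g0)
        have g2 : g 2 = 0 := by linear_combination (-1 : K) * k5 - g0 - g3 - g5
        intro i
        fin_cases i
        · exact g0
        · exact g1
        · exact g2
        · exact g3
        · exact g4
        · exact g5)
    omega
  · have hq : ∀ i j k : Fin 3, i ≠ j → i ≠ k → j ≠ k →
        (X k * (X j + X i) : MvPolynomial (Fin 3) K) ∈ J := by
      intro i j k hij hik hjk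
      obtain ⟨σ, h0, h1, h2⟩ : ∃ σ : Equiv.Perm (Fin 3), σ 0 = i ∧ σ 1 = j ∧ σ 2 = k := by
        revert hij hik hjk; revert i j k; decide
      have h4 := J.mul_mem_left (C (a + b)⁻¹) (sym_mem hJ σ (J.add_mem h hs))
      simp only [map_add, map_mul, rename_C, rename_X, h0, h1, h2] at h4
      convert! h4 using 1
      have : (C (a + b)⁻¹ * (C a + C b) : MvPolynomial (Fin 3) K) = 1 := by
        rw [← map_add, ← map_mul, inv_mul_cancel₀ hab, map_one]
      linear_combination (-(X k * (X j + X i)) : MvPolynomial (Fin 3) K) * this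
    have hd : ∀ i j k : Fin 3, (X k * (X j + X i) : MvPolynomial (Fin 3) K).IsHomogeneous 2 :=
      fun i j k => (isHomogeneous_X K k).mul ((isHomogeneous_X K j).add (isHomogeneous_X K i))
    have h6 := three_le (J := J) ![X 0 * (X 1 + X 2), X 1 * (X 0 + X 2), X 2 * (X 0 + X 1)] (by
        intro i
        fin_cases i
        · exact ⟨hq 2 1 0 (by decide) (by decide) (by decide), hd _ _ _⟩
        · exact ⟨hq 2 0 1 (by decide) (by decide) (by decide), hd _ _ _⟩
        · exact ⟨hq 1 0 2 (by decide) (by decide) (by decide), hd _ _ _⟩) (by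
        intro g hg
        rw [Fin.sum_univ_three] at hg
        have k1 := congrArg (eval ![(1 : K), 1, 0]) hg
        have k2 := congrArg (eval ![(1 : K), 0, 1]) hg
        have k3 := congrArg (eval ![(0 : K), 1, 1]) hg
        simp [smul_eval] at k1 k2 k3
        have g0 : g 0 = 0 := by
          have : (2 : K) * g 0 = 0 := by linear_combination k1 + k2 - k3
          rcases mul_eq_zero.mp this with h | h
          · exact absurd h two_ne_zero
          · exact h
        have g1 : g 1 = 0 := by linear_combination k1 - g0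
        have g2 : g 2 = 0 := by linear_combination k2 - g0
        intro i
        fin_cases i
        · exact g0
        · exact g1
        · exact g2)
    omega

/-- A square and a product with a common variable. -/
lemma caseC (hJ : IsSymmetric J) (h2 : Module.finrank K (piece J 2) ≤ 2)
    {a b : K} (ha : a ≠ 0) (hb : b ≠ 0)
    (h : (C a * X 0 * X 0 + C b * X 0 * X 1 : MvPolynomial (Fin 3) K) ∈ J) : False := by
  have hq : ∀ i j : Fin 3, i ≠ j →
      (C a * X i * X i + C b * X i * X j : MvPolynomial (Fin 3) K) ∈ J := by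
    intro i j hij
    obtain ⟨σ, h0, h1⟩ : ∃ σ : Equiv.Perm (Fin 3), σ 0 = i ∧ σ 1 = j := by
      revert hij; revert i j; decide
    have h4 := sym_mem hJ σ h
    simpa only [map_add, map_mul, rename_C, rename_X, h0, h1] using h4
  have h6 := three_le (J := J) ![C a * X 0 * X 0 + C b * X 0 * X 1,
    C a * X 0 * X 0 + C b * X 0 * X 2, C a * X 1 * X 1 + C b * X 1 * X 2] (by
      intro i
      fin_cases i
      · exact ⟨hq 0 1 (by decide), (hom2 _ _ _).add (hom2 _ _ _)⟩
      · exact ⟨hq 0 2 (by decide), (hom2 _ _ _).add (hom2 _ _ _)⟩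
      · exact ⟨hq 1 2 (by decide), (hom2 _ _ _).add (hom2 _ _ _)⟩) (by
      intro g hg
      rw [Fin.sum_univ_three] at hg
      have k1 := congrArg (eval ![(0 : K), 1, 0]) hg
      have k2 := congrArg (eval ![(1 : K), 0, 0]) hg
      have k3 := congrArg (eval ![(1 : K), 1, 0]) hg
      simp [smul_eval] at k1 k2 k3
      have g2 : g 2 = 0 := by
        rcases k1 with h | h
        · exact h
        · exact absurd h ha
      have g0 : g 0 = 0 := by
        have : g 0 * b = 0 := by rw [g2] at k3; linear_combination k3 - k2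
        rcases mul_eq_zero.mp this with h | h
        · exact h
        · exact absurd h hb
      have g1 : g 1 = 0 := by
        have : g 1 * a = 0 := by rw [g0] at k2; linear_combination k2
        rcases mul_eq_zero.mp this with h | h
        · exact h
        · exact absurd h ha
      intro i
      fin_cases i
      · exact g0
      · exact g1
      · exact g2)
  omega

/-- A square and a product without common variable. -/
lemma caseD (hJ : IsSymmetric J) (h2 : Module.finrank K (piece J 2) ≤ 2)
    {a b : K} (ha : a ≠ 0)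
    (h : (C a * X 0 * X 0 + C b * X 1 * X 2 : MvPolynomial (Fin 3) K) ∈ J) : False := by
  have hq : ∀ i j k : Fin 3, i ≠ j → i ≠ k → j ≠ k →
      (C a * X i * X i + C b * X j * X k : MvPolynomial (Fin 3) K) ∈ J := by
    intro i j k hij hik hjk
    obtain ⟨σ, h0, h1, h2⟩ : ∃ σ : Equiv.Perm (Fin 3), σ 0 = i ∧ σ 1 = j ∧ σ 2 = k := by
      revert hij hik hjk; revert i j k; decide
    have h4 := sym_mem hJ σ h
    simpa only [map_add, map_mul, rename_C, rename_X, h0, h1, h2] using h4
  have h6 := three_le (J := J) ![C a * X 0 * X 0 + C b * X 1 * X 2,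
    C a * X 1 * X 1 + C b * X 0 * X 2, C a * X 2 * X 2 + C b * X 0 * X 1] (by
      intro i
      fin_cases i
      · exact ⟨hq 0 1 2 (by decide) (by decide) (by decide), (hom2 _ _ _).add (hom2 _ _ _)⟩
      · exact ⟨hq 1 0 2 (by decide) (by decide) (by decide), (hom2 _ _ _).add (hom2 _ _ _)⟩
      · exact ⟨hq 2 0 1 (by decide) (by decide) (by decide), (hom2 _ _ _).add (hom2 _ _ _)⟩) (by
      intro g hg
      rw [Fin.sum_univ_three] at hg
      have k1 := congrArg (eval ![(1 : K), 0, 0]) hg
      have k2 := congrArg (eval ![(0 : K), 1, 0]) hg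
      have k3 := congrArg (eval ![(0 : K), 0, 1]) hg
      simp [smul_eval] at k1 k2 k3
      have g0 : g 0 = 0 := by
        rcases k1 with h | h
        · exact h
        · exact absurd h ha
      have g1 : g 1 = 0 := by
        rcases k2 with h | h
        · exact h
        · exact absurd h ha
      have g2 : g 2 = 0 := by
        rcases k3 with h | h
        · exact h
        · exact absurd h ha
      intro i
      fin_cases i
      · exact g0
      · exact g1
      · exact g2)
  omega

lemma caseA' [CharZero K] (hJ : IsSymmetric J) (h2 : Module.finrank K (piece J 2) ≤ 2)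
    (h3 : Module.finrank K (piece J 3) ≤ 5) {a b : K} (ha : a ≠ 0) {i j : Fin 3} (hij : i ≠ j)
    (h : (C a * X i * X i + C b * X j * X j : MvPolynomial (Fin 3) K) ∈ J) : False := by
  obtain ⟨σ, h0, h1⟩ : ∃ σ : Equiv.Perm (Fin 3), σ i = 0 ∧ σ j = 1 := by
    revert hij; clear h; revert i j; decide
  have h4 := sym_mem hJ σ h
  simp only [map_add, map_mul, rename_C, rename_X, h0, h1] at h4
  exact caseA hJ h2 h3 ha h4

lemma caseB' [CharZero K] (hJ : IsSymmetric J) (h2 : Module.finrank K (piece J 2) ≤ 2)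
    (h3 : Module.finrank K (piece J 3) ≤ 5) {a b : K} (ha : a ≠ 0) {i j k : Fin 3}
    (hij : i ≠ j) (hik : i ≠ k) (hjk : j ≠ k)
    (h : (C a * X j * X k + C b * X i * X k : MvPolynomial (Fin 3) K) ∈ J) : False := by
  obtain ⟨σ, h0, h1, hh⟩ : ∃ σ : Equiv.Perm (Fin 3), σ i = 0 ∧ σ j = 1 ∧ σ k = 2 := by
    revert hij hik hjk; clear h; revert i j k; decide
  have h4 := sym_mem hJ σ h
  simp only [map_add, map_mul, rename_C, rename_X, h0, h1, hh] at h4
  exact caseB hJ h2 h3 ha h4

lemma caseC' (hJ : IsSymmetric J) (h2 : Module.finrank K (piece J 2) ≤ 2)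
    {a b : K} (ha : a ≠ 0) (hb : b ≠ 0) {i j : Fin 3} (hij : i ≠ j)
    (h : (C a * X i * X i + C b * X i * X j : MvPolynomial (Fin 3) K) ∈ J) : False := by
  obtain ⟨σ, h0, h1⟩ : ∃ σ : Equiv.Perm (Fin 3), σ i = 0 ∧ σ j = 1 := by
    revert hij; clear h; revert i j; decide
  have h4 := sym_mem hJ σ h
  simp only [map_add, map_mul, rename_C, rename_X, h0, h1] at h4
  exact caseC hJ h2 ha hb h4

lemma caseD' (hJ : IsSymmetric J) (h2 : Module.finrank K (piece J 2) ≤ 2)
    {a b : K} (ha : a ≠ 0) {i j k : Fin 3} (hij : i ≠ j) (hik : i ≠ k) (hjk : j ≠ k)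
    (h : (C a * X i * X i + C b * X j * X k : MvPolynomial (Fin 3) K) ∈ J) : False := by
  obtain ⟨σ, h0, h1, hh⟩ : ∃ σ : Equiv.Perm (Fin 3), σ i = 0 ∧ σ j = 1 ∧ σ k = 2 := by
    revert hij hik hjk; clear h; revert i j k; decide
  have h4 := sym_mem hJ σ h
  simp only [map_add, map_mul, rename_C, rename_X, h0, h1, hh] at h4
  exact caseD hJ h2 ha h4

lemma no_short_one [CharZero K] (hJ : IsSymmetric J) (h2 : Module.finrank K (piece J 2) ≤ 2)
    (h3 : Module.finrank K (piece J 3) ≤ 5) {a : K} (ha : a ≠ 0) (i j : Fin 3)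
    (h : (C a * X i * X j : MvPolynomial (Fin 3) K) ∈ J) : False := by
  by_cases hij : i = j
  · subst hij
    obtain ⟨l, hl⟩ : ∃ l : Fin 3, i ≠ l := by clear h; revert i; decide
    refine caseA' hJ h2 h3 ha (b := 0) hl ?_
    simpa using h
  · obtain ⟨l, hl1, hl2⟩ : ∃ l : Fin 3, l ≠ i ∧ l ≠ j := by clear h hij; revert i j; decide
    refine caseB' hJ h2 h3 ha (b := 0) hl1 hl2 hij ?_
    simpa using h

/-- A symmetric ideal with small pieces contains no form of degree two with one or two terms. -/
lemma no_short_two [CharZero K] (hJ : IsSymmetric J) (h2 : Module.finrank K (piece J 2) ≤ 2)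
    (h3 : Module.finrank K (piece J 3) ≤ 5) {a b : K} (ha : a ≠ 0) (hb : b ≠ 0)
    (i j k l : Fin 3) (hne : ¬ ((i = k ∧ j = l) ∨ (i = l ∧ j = k)))
    (h : (C a * X i * X j + C b * X k * X l : MvPolynomial (Fin 3) K) ∈ J) : False := by
  by_cases hij : i = j
  · subst hij
    by_cases hkl : k = l
    · subst hkl
      exact caseA' hJ h2 h3 ha (fun h => hne (Or.inl ⟨h, h⟩)) h
    · by_cases hik : i = k
      · subst hik
        exact caseC' hJ h2 ha hb hkl h
      · by_cases hil : i = l
        · subst hil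
          refine caseC' hJ h2 ha hb hik ?_
          rwa [mul_right_comm (C b) (X k) (X i)] at h
        · exact caseD' hJ h2 ha hik hil hkl h
  · by_cases hkl : k = l
    · subst hkl
      rw [add_comm] at h
      by_cases hik : k = i
      · subst hik
        exact caseC' hJ h2 hb ha hij h
      · by_cases hjk : k = j
        · subst hjk
          refine caseC' hJ h2 hb ha hik ?_
          rwa [mul_right_comm (C a) (X i) (X k)] at h
        · exact caseD' hJ h2 hb hik hjk hij h
    · by_cases h1 : i = k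
      · subst h1
        have hjl : j ≠ l := fun h => hne (Or.inl ⟨rfl, h⟩)
        refine caseB' hJ h2 h3 ha (i := l) (j := j) (k := i) (b := b) hjl.symm
          (Ne.symm hkl) (Ne.symm hij) ?_
        rwa [mul_right_comm (C a) (X i) (X j), mul_right_comm (C b) (X i) (X l)] at h
      · by_cases h4 : i = l
        · subst h4
          have hjk : j ≠ k := fun h => hne (Or.inr ⟨rfl, h⟩)
          refine caseB' hJ h2 h3 ha (i := k) (j := j) (k := i) (b := b) hjk.symm
            hkl (Ne.symm hij) ?_
          rwa [mul_right_comm (C a) (X i) (X j)] at h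
        · by_cases h5 : j = k
          · subst h5
            refine caseB' hJ h2 h3 ha (i := l) (j := i) (k := j) (b := b) (Ne.symm h4)
              (Ne.symm hkl) hij ?_
            rwa [mul_right_comm (C b) (X j) (X l)] at h
          · have h6 : j = l := by
              clear h hne
              revert hij hkl h1 h4 h5
              revert i j k l
              decide
            subst h6
            exact caseB' hJ h2 h3 ha (i := k) (j := i) (k := j) (b := b) (Ne.symm h1)
              hkl hij h

lemma exists_pair {u : Fin 3 →₀ ℕ} (hu : u.degree = 2) :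
    ∃ i j, u = Finsupp.single i 1 + Finsupp.single j 1 := by
  have h0 : u ≠ 0 := by
    rintro rfl
    simp at hu
  obtain ⟨i, hi⟩ := Finsupp.ne_iff.mp h0
  have hle : Finsupp.single i 1 ≤ u := by
    rw [Finsupp.single_le_iff]
    exact Nat.one_le_iff_ne_zero.mpr hi
  obtain ⟨v, rfl⟩ := exists_add_of_le hle
  have hv : v.degree = 1 := by
    rw [map_add, Finsupp.degree_single] at hu
    omega
  obtain ⟨j, hj⟩ := (Finsupp.sum_eq_one_iff v).mp hv
  exact ⟨i, j, by rw [hj]⟩

lemma monomial_pair (i j : Fin 3) (a : K) :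
    (monomial (Finsupp.single i 1 + Finsupp.single j 1) a : MvPolynomial (Fin 3) K)
      = C a * X i * X j := by
  rw [X, X, C_mul_monomial, monomial_mul]
  simp

lemma no_short [CharZero K] (hJ : IsSymmetric J) (h2 : Module.finrank K (piece J 2) ≤ 2)
    (h3 : Module.finrank K (piece J 3) ≤ 5) {g : MvPolynomial (Fin 3) K} (hg : g ∈ J)
    (hg0 : g ≠ 0) (hgd : g.IsHomogeneous 2) (hc : g.support.card ≤ 2) : False := by
  classical
  have hdeg : ∀ u ∈ g.support, u.degree = 2 := by
    intro u hu
    rw [Finsupp.degree_eq_weight_one]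
    exact hgd (mem_support_iff.mp hu)
  have hpos : 0 < g.support.card := Finset.card_pos.mpr (support_nonempty.mpr hg0)
  have hg' := g.support_sum_monomial_coeff
  rcases (show g.support.card = 1 ∨ g.support.card = 2 by omega) with h1 | h1
  · obtain ⟨u, hu⟩ := Finset.card_eq_one.mp h1
    rw [hu, Finset.sum_singleton] at hg'
    obtain ⟨i, j, rfl⟩ := exists_pair (hdeg u (by rw [hu]; simp))
    rw [monomial_pair] at hg'
    refine no_short_one hJ h2 h3 (a := coeff _ g) ?_ i j (by rw [hg']; exact hg)
    exact mem_support_iff.mp (by rw [hu]; simp)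
  · obtain ⟨u, v, huv, hs⟩ := Finset.card_eq_two.mp h1
    rw [hs, Finset.sum_pair huv] at hg'
    have hu : u ∈ g.support := by rw [hs]; simp
    have hv : v ∈ g.support := by rw [hs]; simp
    obtain ⟨i, j, rfl⟩ := exists_pair (hdeg u hu)
    obtain ⟨k, l, rfl⟩ := exists_pair (hdeg v hv)
    rw [monomial_pair, monomial_pair] at hg'
    refine no_short_two hJ h2 h3 (mem_support_iff.mp hu) (mem_support_iff.mp hv) i j k l ?_
      (by rw [hg']; exact hg)
    rintro (⟨rfl, rfl⟩ | ⟨rfl, rfl⟩)
    · exact huv rfl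
    · exact huv (add_comm _ _)

/-- **The answer to Q1 is no.**  Let `K` be a field of characteristic zero and let
`I₀ ⊂ K[x_0, x_1, x_2]` be the principal symmetric ideal generated by the orbit of
`(x_0 + x_1 + x_2)(x_0 - x_1)`.  It is homogeneous and symmetric, no minimal generating set of it
contains a `K`-symmetric polynomial, and no homogeneous symmetric ideal generated by
monomials and binomials has the same Hilbert function (even in degrees at most three). -/
theorem result (K : Type*) [Field K] [CharZero K] :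
    (I₀ K).IsHomogeneous (homogeneousSubmodule (Fin 3) K) ∧ IsSymmetric (I₀ K) ∧
    NoKSymmetricMinimalGenerator (I₀ K) ∧
    ∀ J : Ideal (MvPolynomial (Fin 3) K), J.IsHomogeneous (homogeneousSubmodule (Fin 3) K) →
      IsSymmetric J → IsGenByMonomialsAndBinomials J →
      ∃ d : ℕ, d ≤ 3 ∧ hilb (I₀ K) d ≠ hilb J d := by
  classical
  refine ⟨I₀_homogeneous, I₀_symmetric, ⟨noKSymmetric_card, noKSymmetric_hom⟩, ?_⟩
  rintro J hhom hsym ⟨s, hs, hJs⟩
  by_contra hcon
  push Not at hcon
  have hp : ∀ d, d ≤ 3 → Module.finrank K (piece (I₀ K) d) = Module.finrank K (piece J d) :=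
    fun d hd => finrank_piece_eq_of_hilb_eq (hcon d hd)
  have h2 : Module.finrank K (piece J 2) ≤ 2 := by rw [← hp 2 (by omega)]; exact piece_two_le
  have h3 : Module.finrank K (piece J 3) ≤ 5 := by rw [← hp 3 (by omega)]; exact piece_three_le
  have hsmall : ∀ d, d < 2 → ∀ f ∈ J, homogeneousComponent d f = 0 := by
    intro d hd f hf
    have h0 := piece_zero_of_lt (K := K) hd
    rw [hp d (by omega)] at h0
    have := finite_piece J d
    have hbot : piece J d = ⊥ := Submodule.finrank_eq_zero.mp h0
    have hmem : homogeneousComponent d f ∈ piece J d :=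
      mem_piece.mpr ⟨component_mem hhom hf d, homogeneousComponent_isHomogeneous _ _⟩
    rw [hbot, Submodule.mem_bot] at hmem
    exact hmem
  -- some generator has a nonzero component of degree two
  obtain ⟨f, hf, hf2⟩ : ∃ f ∈ s, homogeneousComponent 2 f ≠ 0 := by
    by_contra hcon2
    push Not at hcon2
    have hle : J ≤ WtGE K 1 3 := by
      rw [hJs, Ideal.span_le]
      intro f hf u hu
      have hfJ : f ∈ J := by rw [hJs]; exact Ideal.subset_span hf
      by_contra hlt
      have hd : Finsupp.weight (1 : Fin 3 → ℕ) u < 3 := by omega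
      have hz : homogeneousComponent (Finsupp.weight (1 : Fin 3 → ℕ) u) f = 0 := by
        rcases (show Finsupp.weight (1 : Fin 3 → ℕ) u < 2 ∨
          Finsupp.weight (1 : Fin 3 → ℕ) u = 2 by omega) with h | h
        · exact hsmall _ h f hfJ
        · rw [h]; exact hcon2 f hf
      have h4 := congrArg (coeff u) hz
      rw [coeff_homogeneousComponent, if_pos, coeff_zero] at h4
      · exact (mem_support_iff.mp hu) h4
      · rw [Finsupp.degree_eq_weight_one]; rfl
    have h0 := piece_two_ne_zero (K := K)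
    rw [hp 2 (by omega)] at h0
    apply h0
    have hbot : piece J 2 = ⊥ := by
      rw [eq_bot_iff]
      intro f hf
      rw [mem_piece] at hf
      rw [Submodule.mem_bot]
      by_contra hne
      obtain ⟨u, hu⟩ := support_nonempty.mpr hne
      have h1 := hle hf.1 u hu
      have h2 : Finsupp.weight (1 : Fin 3 → ℕ) u = 2 := hf.2 (mem_support_iff.mp hu)
      omega
    rw [hbot]
    exact finrank_bot K _
  have hfJ : f ∈ J := by rw [hJs]; exact Ideal.subset_span hf
  have hcard : f.support.card ≤ 2 := by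
    rcases hs f hf with ⟨u, rfl⟩ | h
    · refine (Finset.card_le_card support_monomial_subset).trans ?_
      simp
    · exact h.le
  refine no_short hsym h2 h3 (component_mem hhom hfJ 2) hf2
    (homogeneousComponent_isHomogeneous _ _) ?_
  refine le_trans (Finset.card_le_card ?_) hcard
  rw [support_homogeneousComponent]
  exact Finset.filter_subset _ _

end Example

end Pool.Agent.Results.MP_f9b6b5_al.NoBinomialModel
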